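import Pool.Agent.H.MP_41a254_co.B

namespace Pool.Agent.Results.MP_41a254_co.Yes

open Set Metric Filter Topology Pointwise RealInnerProductSpace Pool.Agent.H.MP_41a254_co

theorem g1 {n : ℕ} {M s : ℝ} (hM : 0 ≤ M) (hs : 1 / 4 < s) (c : ℕ) :
    Gap (D n M s ∪ P M '' {c}ᶜ) {P M c} := by
  refine ⟨!₂[2 * c, -1, 0], fun h => by simpa using congrArg (· 1) h, c ^ 2 - 1 / 4, c ^ 2,
    by linarith, ?_, by simp [inn, P]; linarith⟩
  rintro x (h | ⟨a, h, rfl⟩) <;> simp only [inn, P, Matrix.cons_val]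
  · linarith [(D_le hM h c).2]
  · nlinarith [one_le_sq_iff_one_le_abs _ |>.mpr (d1 h)]

theorem g2 {n : ℕ} {M s : ℝ} (hM : 4 * (n : ℝ) ^ 3 + 8 ≤ M) (hs : 1 / 4 < s) (hn : 5 ≤ n) {a b : ℕ}
    (h : a < b) (hb : b ≤ n) : Gap {P M a, P M b} (D n M s) := by
  have n3 : (0 : ℝ) ≤ n ^ 3 := by positivity
  have ne : Q M s 1 ∈ D n M s := subset_convexHull _ _ ⟨1, ⟨le_rfl, by omega⟩, rfl⟩
  obtain ⟨f, x, y, p, q, r⟩ := geometric_hahn_banach_closed_compact (convex_segment (P M a) (P M b))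
    (by rw [← convexHull_pair]; exact (toFinite _).isClosed_convexHull ℝ) (convex_convexHull ℝ _)
    (((finite_Icc 1 (n - 4)).image (Q M s)).isCompact_convexHull ℝ) (disjoint_left.mpr (by
      rintro _ ⟨v, w, v0, w0, vw, rfl⟩ m
      obtain rfl : v = 1 - w := by linarith
      obtain ⟨e, l⟩ := D_le (by linarith) m ((1 - w) * a + w * b)
      simp only [P, PiLp.add_apply, PiLp.smul_apply, Matrix.cons_val, smul_eq_mul] at e l
      have d := dom hM h (V := n ^ 2) (by
        rw [abs_of_nonneg (by positivity)]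
        exact_mod_cast Nat.pow_le_pow_right (by omega) (by omega))
      have e := congrArg abs (eq_neg_of_add_eq_zero_left e)
      rw [abs_neg, abs_mul, abs_mul, abs_of_nonneg v0, abs_of_nonneg w0] at e
      rw [abs_mul, abs_of_nonneg (sq_nonneg (n : ℝ))] at d
      have z : 0 < |(-M) ^ a| := abs_pos.mpr (pow_ne_zero _ (by linarith))
      have k : w * (4 * n ^ 2) ≤ 1 - w := le_of_mul_le_mul_right (by nlinarith) z
      have := sq_le_sq' (abs_le.mp (df (h.le.trans hb) hb)).1 (abs_le.mp (df (h.le.trans hb) hb)).2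
      nlinarith [mul_le_mul_of_nonneg_left this (mul_nonneg w0 v0), mul_nonneg w0 w0,
        mul_nonneg (mul_nonneg w0 w0) (sq_nonneg (n : ℝ))]))
  obtain ⟨u, hu⟩ := rep f
  simp only [hu] at p r
  refine ⟨u, fun c => ?_, x, y, q, ?_, fun z hz => (r z hz).le⟩
  · have := p _ (left_mem_segment ..)
    have := r _ ne
    simp only [c, inner_zero_left] at *
    linarith
  · rintro _ (rfl | rfl)
    exacts [(p _ (left_mem_segment ..)).le, (p _ (right_mem_segment ..)).le]

theorem g3 {M s : ℝ} (hM : 8 ≤ M) (hs : s < 1 / 2) (t : ℕ) : Gap (P M '' {t + 1}ᶜ) {Q M s t} := by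
  have t0 : 0 < 1 / (M + 1) := by positivity
  have t1 : 1 / (M + 1) ≤ 1 / 8 := one_div_le_one_div_of_le (by norm_num) (by linarith)
  simp only [Q]
  generalize 1 / (M + 1) = θ at *
  refine ⟨!₂[2 * (t + 1 + θ), -1, 0], fun h => by simpa using congrArg (· 1) h,
    (t + 1 + θ) ^ 2 - (1 - θ) ^ 2, (t + 1 + θ) ^ 2 - θ * (1 - θ) - s, by nlinarith, ?_,
    by simp [inn]; linarith⟩
  rintro _ ⟨a, h, rfl⟩
  simp only [inn, P, Matrix.cons_val]
  have := d1 h
  push_cast at this
  rcases le_abs'.mp this with c | c <;> nlinarith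

theorem result (k : ℕ) : ∃ N, ∀ n ≥ N, ∃ K : Fin n → Set E, K.Injective ∧
    (∀ i, IsCompact (K i) ∧ Convex ℝ (K i) ∧ (interior (K i)).Nonempty) ∧
    (∀ a b c, a ≠ b → a ≠ c → b ≠ c → Sep (K a ∪ K b) (K c)) ∧
    (∀ g : Fin 4 ↪ Fin n, ∀ u ≠ 0, ∀ τ, ¬∀ j, Supp (K (g j)) u τ) ∧
    (∀ F : Finset (Fin n), F.card = k → ConvPos K F) ∧ ¬ConvPos K univ := by
  refine ⟨k + 5, fun n hn => ?_⟩
  obtain ⟨M, hM⟩ : ∃ M : ℝ, 4 * (n : ℝ) ^ 3 + 8 ≤ M := ⟨_, le_rfl⟩
  have M8 : 8 ≤ M := le_trans (le_add_of_nonneg_left (by positivity)) hM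
  have M0 : 0 ≤ M := by linarith
  obtain ⟨s, ⟨s0, s1⟩, hs⟩ := generic n hM
  let L : Fin n → Set E := fun i => if i.1 = 0 then D n M s else {P M i}
  have L0 {i : Fin n} (h : i.1 = 0) : L i = D n M s := if_pos h
  have L1 {i : Fin n} (h : i.1 ≠ 0) : L i = {P M i} := if_neg h
  have q (t) (a : 1 ≤ t) (b : t ≤ n - 4) : Q M s t ∈ D n M s := subset_convexHull _ _ ⟨t, ⟨a, b⟩, rfl⟩
  have pL i : IsCompact (L i) ∧ Convex ℝ (L i) ∧ (L i).Nonempty := by
    by_cases h : i.1 = 0
    · exact L0 h ▸ ⟨((finite_Icc _ _).image _).isCompact_convexHull ℝ, convex_convexHull _ _,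
        _, q 1 le_rfl (by omega)⟩
    · exact L1 h ▸ ⟨isCompact_singleton, convex_singleton _, singleton_nonempty _⟩
  have sub {a c : Fin n} (h : a ≠ c) : L a ⊆ D n M s ∪ P M '' {c.1}ᶜ := by
    by_cases z : a.1 = 0
    · exact L0 z ▸ subset_union_left
    · exact L1 z ▸ singleton_subset_iff.mpr (.inr ⟨a, Fin.val_ne_of_ne h, rfl⟩)
  have S (a b c : Fin n) (ab : a ≠ b) (ac : a ≠ c) (bc : b ≠ c) : Gap (L a ∪ L b) (L c) := by
    by_cases z : c.1 = 0
    · rw [L0 z, L1 (i := a) (by omega), L1 (i := b) (by omega), singleton_union]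
      rcases ab.lt_or_gt with h | h
      exacts [g2 hM s0 (by omega) h b.2.le, pair_comm (P M b) _ ▸ g2 hM s0 (by omega) h a.2.le]
    · exact (g1 M0 s0 c).mono (union_subset (sub ac) (sub bc)) (L1 z).le
  have X (F : Finset (Fin n)) (hF : F.card = k) (i : Fin n) :
      ∃ x ∈ L i, Gap (⋃ j ∈ (F : Set (Fin n)) \ {i}, L j) {x} := by
    by_cases z : i.1 = 0
    · obtain ⟨t, a, b⟩ := Finset.exists_mem_notMem_of_card_lt_card
        (s := F.image Fin.val) (t := Finset.Icc 2 (n - 3))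
        (Finset.card_image_le.trans_lt (by rw [Nat.card_Icc]; omega))
      rw [Finset.mem_Icc] at a
      refine ⟨_, L0 z ▸ q (t - 1) (by omega) (by omega), (g3 M8 s1 (t - 1)).mono
        (iUnion₂_subset fun j hj => ?_) le_rfl⟩
      have : j.1 ≠ 0 := fun c => hj.2 (Fin.ext (c.trans z.symm))
      exact L1 this ▸ singleton_subset_iff.mpr ⟨j, fun c => b (Finset.mem_image.mpr
        ⟨j, hj.1, by rw [c]; omega⟩), rfl⟩
    · exact ⟨_, (L1 z).ge rfl, (g1 M0 s0 i).mono (iUnion₂_subset fun j hj => sub hj.2) le_rfl⟩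
  have N (g : Fin 4 ↪ Fin n) (u : E) (u0 : u ≠ 0) (τ : ℝ) (h : ∀ j, Supp (L (g j)) u τ) : False := by
    have e (j) (z : (g j).1 ≠ 0) : ⟪u, P M (g j)⟫ = τ := by simpa [L1 z] using (h j).1
    have ne {i j : Fin 4} (h : i ≠ j) : (g i).1 ≠ g j := Fin.val_ne_of_ne (g.injective.ne h)
    by_cases z : ∃ j, (g j).1 = 0
    · obtain ⟨j, z⟩ := z
      have e (i) := e (j.succAbove i) (z ▸ ne (j.succAbove_ne i))
      have ne {a b : Fin 3} (h : a ≠ b) := g.injective.ne ((Fin.succAbove_right_injective (p := j)).ne h)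
      exact hs _ _ _ (ne (by decide)) (ne (by decide)) (ne (by decide)) u u0 τ (e 0) (e 1) (e 2)
        (L0 z ▸ h j)
    · have e (j) := e j fun c => z ⟨j, c⟩
      simp only [inn, P, Matrix.cons_val] at e
      refine four hM (ne (i := 0) (j := 1) (by decide)) (ne (j := 2) (by decide)) (ne (by decide))
        (ne (j := 3) (by decide)) (ne (by decide)) (ne (by decide)) (g _).2.le (g _).2.le (g _).2.le
        (g _).2.le (α := u 0) (β := u 1) (γ := u 2) (τ := τ) (fun c => u0 ?_) (by simp [e])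
      simp only [c, zero_mul, add_zero] at e
      obtain ⟨x, y⟩ := quad (mod_cast ne (by decide)) (mod_cast ne (by decide))
        (mod_cast ne (by decide)) (e 0) (e 1) (e 2)
      ext i
      fin_cases i <;> simp [*]
  choose! x x1 x2 using X
  obtain ⟨ε, ⟨⟨eS, eX⟩, eN⟩, e0⟩ := ((((eventually_all.mpr fun a => eventually_all.mpr fun b =>
    eventually_all.mpr fun c => eventually_all.mpr fun ab => eventually_all.mpr fun ac =>
    eventually_all.mpr fun bc => (S a b c ab ac bc).thick).and (eventually_all.mpr fun F =>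
    eventually_all.mpr fun hF => eventually_all.mpr fun i => (x2 F hF i).thick)).and
    (eventually_all.mpr fun g : Fin 4 ↪ Fin n => nd _ (fun j => (pL (g j)).1) fun u u0 τ =>
    N g u u0 τ)).and self_mem_nhdsWithin).exists
  have e0 : 0 < ε := e0
  let r : Fin n → ℝ := fun i => if i.1 = 0 then ε / 2 else ε
  have hr i : 0 < r i ∧ r i ≤ ε := by
    simp only [r]
    split_ifs <;> constructor <;> linarith
  have ks i {A : Set E} (h : L i ⊆ A) : L i + closedBall 0 (r i) ⊆ A + closedBall 0 ε :=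
    add_subset_add h (closedBall_subset_closedBall (hr i).2)
  have cK i := (pL i).1.add (isCompact_closedBall (0 : E) (r i))
  have sK a b c ab ac bc := (eS a b c ab ac bc).sep
    (union_subset (ks a subset_union_left) (ks b subset_union_right)) (ks c le_rfl)
  have iK i : (interior (L i + closedBall 0 (r i))).Nonempty :=
    ((pL i).2.2.add (nonempty_ball.mpr (hr i).1)).mono
      (interior_maximal (add_subset_add_left ball_subset_closedBall) isOpen_ball.add_left)
  refine ⟨fun i => L i + closedBall 0 (r i), fun a c h => by_contra fun ac => ?_,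
    fun i => ⟨cK i, (pL i).2.1.add (convex_closedBall _ _), iK i⟩, sK,
    fun g => eN g _ fun j => ⟨(hr _).1.le, (hr _).2⟩, fun F hF i hi => ?_, fun h => ?_⟩
  · obtain ⟨b, -, hb⟩ := Finset.exists_mem_notMem_of_card_lt_card (s := {a, c}) (t := Finset.univ)
      (Finset.card_le_two.trans_lt (by simp; omega))
    simp only [Finset.mem_insert, Finset.mem_singleton, not_or] at hb
    obtain ⟨u, -, τ, p, q⟩ := sK a b c (Ne.symm hb.1) ac hb.2
    obtain ⟨y, hy⟩ := (iK a).mono interior_subset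
    exact (p y (.inl hy)).not_gt (q y (h.le hy))
  · convert cp (Y := ⋃ j ∈ (F : Set (Fin n)) \ {i}, (L j + closedBall 0 (r j))) (hr i).1 (pL i).1
      (pL i).2.1 ((toFinite _).isCompact_biUnion fun j _ => cK j).isBounded (x1 F hF i)
      ((eX F hF i).mono (iUnion₂_subset fun j hj => ks j (subset_biUnion_of_mem hj))
        (singleton_subset_iff.mpr ⟨_, rfl, 0, mem_closedBall_self e0.le, add_zero _⟩)) using 6
    rw [← biUnion_insert i _ fun j => L j + closedBall 0 (r j), insert_sdiff_singleton,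
      insert_eq_of_mem hi]
  · obtain ⟨O, -, ⟨y, hy⟩, hO⟩ := h ⟨0, by omega⟩ trivial
    refine (hO hy).2 (interior_maximal (t := D n M s + ball 0 ε) ?_ isOpen_ball.add_left
      (add_subset_add (L0 rfl).le (closedBall_subset_ball (by simpa [r]))
        ((cK _).isClosed.frontier_subset hy.2)))
    rintro _ ⟨w, hw, e, he, rfl⟩
    refine convexHull_min (t := (· + e) ⁻¹' _) ?_ ((convex_convexHull ℝ _).translate_preimage_left e)
      (D_sub M0 (by linarith) (by linarith) hw)
    rintro _ ⟨t, ⟨a, b⟩, rfl⟩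
    refine subset_convexHull _ _ (mem_biUnion (mem_univ ⟨t, by omega⟩) ⟨_, (L1 (by simp; omega)).ge rfl,
      e, ?_, rfl⟩)
    simpa [r, show t ≠ 0 by omega] using (mem_ball_zero_iff.mp he).le

end Pool.Agent.Results.MP_41a254_co.Yes
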